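import Pool.Agent.Helper96.KS.Parts

/-!
# KS.S_MOM: moments of the martingale of the ideal chain
-/

set_option autoImplicit false

open Finset

namespace KS.MOM_helper20

open Inst

open scoped Classical

variable {K : ℕ} (I : Inst K)

/-- the one-step increment -/
noncomputable def xi (k : Fin K) (v : I.H) : ℝ :=
  Real.log (I.dg v) - I.mu + psi I (I.c v) - psi I k

lemma Tn_succ (n : ℕ) (f : Fin K → ℝ → ℝ) : I.Tn (n + 1) f = I.Tn n (I.T f) := by
  unfold Tn
  rw [Function.iterate_succ_apply]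

lemma T_Y (n : ℕ) (k0 : Fin K) (g : ℝ → ℝ) :
    I.T (fun k x => g (x - ((n + 1 : ℕ) : ℝ) * I.mu + psi I k - psi I k0)) =
      fun k x => ∑ v : I.H, I.q k v * g ((x - (n : ℝ) * I.mu + psi I k - psi I k0) + xi I k v) := by
  funext k x
  unfold T
  refine Finset.sum_congr rfl fun v _ => ?_
  congr 2
  unfold xi
  push_cast
  ring

lemma al_le_one {Δ : ℕ} (hV : I.Valid Δ) : I.al ≤ 1 := by
  unfold al
  have hN : (0 : ℝ) < I.N := by exact_mod_cast hV.npos
  rw [div_le_one hN]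
  exact_mod_cast hV.al1

/-- law of the community -/
lemma Tn_com (hQ : S_Q) {Δ : ℕ} (hV : I.Valid Δ) (f : Fin K → ℝ) :
    ∀ (n : ℕ) (a b : ℝ), I.Tn n (fun k _ => a * f k + b) =
      fun k _ => a * ((1 - I.al) ^ n * f k + (1 - (1 - I.al) ^ n) * ((1 / (K : ℝ)) * ∑ l, f l)) + b := by
  obtain ⟨_, _, _, _, _, _, hq1, hqf⟩ := hQ K Δ I hV
  have hK : (0 : ℝ) < K := by
    have := hV.hK
    have : 0 < K := by omega
    exact_mod_cast this
  have hstep : ∀ a b : ℝ, I.T (fun k _ => a * f k + b) =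
      fun k _ => (a * (1 - I.al)) * f k + (a * (I.al * ((1 / (K : ℝ)) * ∑ l, f l)) + b) := by
    intro a b
    funext k x
    unfold T
    have h1 : ∀ v : I.H, I.q k v * (a * f (I.c v) + b) =
        a * (I.q k v * f (I.c v)) + b * I.q k v := by intro v; ring
    simp_rw [h1]
    rw [Finset.sum_add_distrib, ← Finset.mul_sum, ← Finset.mul_sum, hqf k f, hq1 k]
    have h2 : ∑ l, I.Msw k l * f l = (1 - I.al) * f k + I.al / K * ∑ l, f l := by
      unfold Msw
      have h3 : ∀ l : Fin K, ((1 - I.al) * (if k = l then 1 else 0) + I.al / K) * f l =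
          (1 - I.al) * (if k = l then f l else 0) + I.al / K * f l := by
        intro l
        split_ifs <;> ring
      simp_rw [h3]
      rw [Finset.sum_add_distrib, ← Finset.mul_sum, ← Finset.mul_sum, Finset.sum_ite_eq]
      simp
    rw [h2]
    field_simp
    ring
  intro n
  induction n with
  | zero =>
    intro a b
    funext k x
    simp [Tn]
  | succ n ih =>
    intro a b
    rw [Tn_succ, hstep, ih]
    funext k x
    rw [pow_succ]
    ring

theorem main (hQ : S_Q) (hTN : S_TN) (hC1 : S_C1) : S_MOM := by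
  intro K Δ I hV hal s0 hs0 hs n k0
  obtain ⟨hmono, hlin, hconst, _, _, _⟩ := hTN K Δ I hV
  obtain ⟨hMsw0, _, _, _, hq0, _, hq1, _⟩ := hQ K Δ I hV
  obtain ⟨_, hsn, hmu, _, _, hx1, hx2, hxa, hx4⟩ := hC1 K Δ I hV hal
  have hx4' := hx4 s0 hs0 hs
  have hal1 := al_le_one I hV
  have hK : (2 : ℝ) ≤ K := by exact_mod_cast hV.hK
  have hnu : 0 < I.nu2 := lt_of_lt_of_le (lt_of_lt_of_le hs0 hs) hsn
  have hadd : ∀ (n : ℕ) (f g : Fin K → ℝ → ℝ) (k : Fin K) (x : ℝ),
      I.Tn n (fun k x => f k x + g k x) k x = I.Tn n f k x + I.Tn n g k x := by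
    intro n f g k x
    have := hlin n f g 1 1 k x
    simpa using this
  have hsmul : ∀ (n : ℕ) (f : Fin K → ℝ → ℝ) (a : ℝ) (k : Fin K) (x : ℝ),
      I.Tn n (fun k x => a * f k x) k x = a * I.Tn n f k x := by
    intro n f a k x
    have := hlin n f f a 0 k x
    simpa using this
  -- the functions
  set Y : ℕ → Fin K → ℝ → ℝ := fun n k x => x - (n : ℝ) * I.mu + psi I k - psi I k0 with hYdef
  set m2 : Fin K → ℝ := fun k => ∑ v, I.q k v * (xi I k v) ^ 2 with hm2
  set m4 : Fin K → ℝ := fun k => ∑ v, I.q k v * (xi I k v) ^ 4 with hm4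
  have hxz : ∀ k, ∑ v, I.q k v * xi I k v = 0 := hx1
  have hx2' : ∀ k, m2 k ≤ 6 * K * I.nu2 := hx2
  have hxa' : (1 / (K : ℝ)) * ∑ k, m2 k = I.nu2 := hxa
  have hx4'' : ∀ k, m4 k ≤ 8 * ((Real.log Δ) ^ 2 * K / s0 + 4 * (K : ℝ) ^ 2 / I.al) * I.nu2 ^ 2 :=
    hx4'
  have hm20 : ∀ k, 0 ≤ m2 k := fun k =>
    Finset.sum_nonneg fun v _ => mul_nonneg (hq0 k v) (sq_nonneg _)
  have hm40 : ∀ k, 0 ≤ m4 k := fun k =>
    Finset.sum_nonneg fun v _ => mul_nonneg (hq0 k v) (by positivity)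
  have hstep : ∀ (n : ℕ) (g : ℝ → ℝ), I.Tn (n + 1) (fun k x => g (Y (n + 1) k x)) =
      I.Tn n (fun k x => ∑ v : I.H, I.q k v * g (Y n k x + xi I k v)) := by
    intro n g
    rw [Tn_succ]
    congr 1
    exact T_Y I n k0 g
  have hY0 : Y 0 k0 0 = 0 := by simp [hYdef]
  -- first moment
  have hM1 : ∀ n, I.Tn n (fun k x => Y n k x) k0 0 = 0 := by
    intro n
    induction n with
    | zero => simpa [Tn] using hY0
    | succ n ih =>
      have h := hstep n (fun y => y)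
      have h' : I.Tn (n + 1) (fun k x => Y (n + 1) k x) =
        I.Tn n (fun k x => ∑ v : I.H, I.q k v * (Y n k x + xi I k v)) := h
      rw [h']
      have e : (fun (k : Fin K) (x : ℝ) => ∑ v : I.H, I.q k v * (Y n k x + xi I k v)) =
          fun k x => Y n k x := by
        funext k x
        simp_rw [mul_add]
        rw [Finset.sum_add_distrib, hxz k, ← Finset.sum_mul, hq1 k]
        ring
      rw [e]
      exact ih
  -- second moment
  have hM2 : ∀ n, I.Tn (n + 1) (fun k x => Y (n + 1) k x ^ 2) k0 0 =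
      I.Tn n (fun k x => Y n k x ^ 2) k0 0 + I.Tn n (fun k _ => m2 k) k0 0 := by
    intro n
    have h := hstep n (fun y => y ^ 2)
    have h' : I.Tn (n + 1) (fun k x => Y (n + 1) k x ^ 2) =
      I.Tn n (fun k x => ∑ v : I.H, I.q k v * (Y n k x + xi I k v) ^ 2) := h
    rw [h', ← hadd]
    congr 1
    congr 1
    funext k x
    have e : ∀ v : I.H, I.q k v * (Y n k x + xi I k v) ^ 2 =
        Y n k x ^ 2 * I.q k v + (2 * Y n k x) * (I.q k v * xi I k v)
          + I.q k v * (xi I k v) ^ 2 := by intro v; ring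
    simp_rw [e]
    rw [Finset.sum_add_distrib, Finset.sum_add_distrib, ← Finset.mul_sum, ← Finset.mul_sum,
      hxz k, hq1 k]
    simp [hm2]
  have hU2 : ∀ n : ℕ, I.Tn n (fun k x => Y n k x ^ 2) k0 0 ≤ 6 * K * I.nu2 * n := by
    intro n
    induction n with
    | zero =>
      simp only [Tn, Function.iterate_zero, id, hY0]
      simp
    | succ n ih =>
      rw [hM2]
      have h1 : I.Tn n (fun k _ => m2 k) k0 0 ≤ 6 * K * I.nu2 := by
        have := hmono n (fun k _ => m2 k) (fun _ _ => 6 * K * I.nu2) (fun k x => hx2' k) k0 0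
        rwa [hconst] at this
      push_cast
      nlinarith
  have hcom : ∀ n : ℕ, (1 - (1 - I.al) ^ n) * I.nu2 ≤ I.Tn n (fun k _ => m2 k) k0 0 := by
    intro n
    have h := Tn_com I hQ hV m2 n 1 0
    have h' : I.Tn n (fun k _ => m2 k) = fun k _ => (1 - I.al) ^ n * m2 k +
        (1 - (1 - I.al) ^ n) * ((1 / (K : ℝ)) * ∑ l, m2 l) := by
      simpa using h
    rw [h', hxa']
    have : 0 ≤ (1 - I.al) ^ n * m2 k0 := mul_nonneg (pow_nonneg (by linarith) n) (hm20 k0)
    show _ ≤ (1 - I.al) ^ n * m2 k0 + _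
    linarith
  have hL2 : ∀ n : ℕ, I.nu2 * (n - (1 - (1 - I.al) ^ n) / I.al) ≤
      I.Tn n (fun k x => Y n k x ^ 2) k0 0 := by
    intro n
    induction n with
    | zero =>
      simp only [Tn, Function.iterate_zero, id, hY0]
      simp
    | succ n ih =>
      rw [hM2]
      have h1 := hcom n
      have e : I.nu2 * (((n + 1 : ℕ) : ℝ) - (1 - (1 - I.al) ^ (n + 1)) / I.al) =
          I.nu2 * ((n : ℝ) - (1 - (1 - I.al) ^ n) / I.al) + (1 - (1 - I.al) ^ n) * I.nu2 := by
        rw [pow_succ]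
        push_cast
        field_simp
        ring
      rw [e]
      linarith
  -- fourth moment
  set C4 : ℝ := (Real.log Δ) ^ 2 * K / s0 + 4 * (K : ℝ) ^ 2 / I.al with hC4
  have hC40 : 0 ≤ C4 := by positivity
  have hM4 : ∀ n, I.Tn (n + 1) (fun k x => Y (n + 1) k x ^ 4) k0 0 ≤
      I.Tn n (fun k x => Y n k x ^ 4) k0 0 + (48 * K * I.nu2) * I.Tn n (fun k x => Y n k x ^ 2) k0 0
        + 24 * C4 * I.nu2 ^ 2 := by
    intro n
    have h := hstep n (fun y => y ^ 4)
    have h' : I.Tn (n + 1) (fun k x => Y (n + 1) k x ^ 4) =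
      I.Tn n (fun k x => ∑ v : I.H, I.q k v * (Y n k x + xi I k v) ^ 4) := h
    rw [h']
    have hb : ∀ (k : Fin K) (x : ℝ), ∑ v : I.H, I.q k v * (Y n k x + xi I k v) ^ 4 ≤
        (Y n k x ^ 4 + (48 * K * I.nu2) * Y n k x ^ 2) + 24 * C4 * I.nu2 ^ 2 := by
      intro k x
      set y := Y n k x with hy
      have e1 : ∀ v : I.H, I.q k v * (y + xi I k v) ^ 4 ≤
          y ^ 4 * I.q k v + (4 * y ^ 3) * (I.q k v * xi I k v)
            + (8 * y ^ 2) * (I.q k v * (xi I k v) ^ 2) + 3 * (I.q k v * (xi I k v) ^ 4) := by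
        intro v
        have hq := hq0 k v
        have key : (y + xi I k v) ^ 4 ≤ y ^ 4 + 4 * y ^ 3 * xi I k v
            + 8 * y ^ 2 * (xi I k v) ^ 2 + 3 * (xi I k v) ^ 4 := by
          nlinarith [sq_nonneg (y * xi I k v - (xi I k v) ^ 2)]
        calc I.q k v * (y + xi I k v) ^ 4 ≤ I.q k v * (y ^ 4 + 4 * y ^ 3 * xi I k v
            + 8 * y ^ 2 * (xi I k v) ^ 2 + 3 * (xi I k v) ^ 4) :=
              mul_le_mul_of_nonneg_left key hq
          _ = _ := by ring
      calc ∑ v : I.H, I.q k v * (y + xi I k v) ^ 4 ≤ ∑ v : I.H,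
            (y ^ 4 * I.q k v + (4 * y ^ 3) * (I.q k v * xi I k v)
            + (8 * y ^ 2) * (I.q k v * (xi I k v) ^ 2) + 3 * (I.q k v * (xi I k v) ^ 4)) :=
            Finset.sum_le_sum fun v _ => e1 v
        _ = y ^ 4 + (8 * y ^ 2) * m2 k + 3 * m4 k := by
            rw [Finset.sum_add_distrib, Finset.sum_add_distrib, Finset.sum_add_distrib,
              ← Finset.mul_sum, ← Finset.mul_sum, ← Finset.mul_sum, ← Finset.mul_sum, hxz k, hq1 k]
            simp [hm2, hm4]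
        _ ≤ y ^ 4 + (8 * y ^ 2) * (6 * K * I.nu2) + 3 * (8 * C4 * I.nu2 ^ 2) := by
            have a1 := mul_le_mul_of_nonneg_left (hx2' k) (by positivity : (0:ℝ) ≤ 8 * y ^ 2)
            have a2 := hx4'' k
            linarith
        _ = _ := by ring
    refine (hmono n _ _ hb k0 0).trans ?_
    rw [hadd n (fun k x => Y n k x ^ 4 + (48 * K * I.nu2) * Y n k x ^ 2)
        (fun _ _ => 24 * C4 * I.nu2 ^ 2) k0 0,
      hadd n (fun k x => Y n k x ^ 4) (fun k x => (48 * K * I.nu2) * Y n k x ^ 2) k0 0,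
      hsmul n (fun k x => Y n k x ^ 2) (48 * K * I.nu2) k0 0, hconst]
  have hU4 : ∀ n : ℕ, I.Tn n (fun k x => Y n k x ^ 4) k0 0 ≤
      144 * (K : ℝ) ^ 2 * I.nu2 ^ 2 * (n : ℝ) ^ 2 + 24 * C4 * I.nu2 ^ 2 * n := by
    intro n
    induction n with
    | zero =>
      simp only [Tn, Function.iterate_zero, id, hY0]
      simp
    | succ n ih =>
      refine (hM4 n).trans ?_
      have h1 := mul_le_mul_of_nonneg_left (hU2 n) (by positivity : (0:ℝ) ≤ 48 * K * I.nu2)
      push_cast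
      have h2 : (0 : ℝ) ≤ 144 * (K : ℝ) ^ 2 * I.nu2 ^ 2 := by positivity
      nlinarith
  refine ⟨hM1 n, ?_, hU2 n, ?_⟩
  · refine le_trans ?_ (hL2 n)
    refine mul_le_mul_of_nonneg_left ?_ hnu.le
    have h1 : (1 - (1 - I.al) ^ n) / I.al ≤ 1 / I.al := by
      refine div_le_div_of_nonneg_right ?_ hal.le
      have : 0 ≤ (1 - I.al) ^ n := pow_nonneg (by linarith) n
      linarith
    linarith
  · refine (hU4 n).trans ?_
    have hn : (n : ℝ) ≤ n / I.al := by
      rw [le_div_iff₀ hal]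
      have : (0 : ℝ) ≤ n := Nat.cast_nonneg n
      nlinarith
    have hn0 : (0 : ℝ) ≤ n := Nat.cast_nonneg n
    have hL : 0 ≤ (Real.log Δ) ^ 2 / s0 := by positivity
    have e1 : C4 * n ≤ (K : ℝ) ^ 2 * ((Real.log Δ) ^ 2 / s0) * (n / I.al)
        + 4 * (K : ℝ) ^ 2 * (n / I.al) := by
      rw [hC4]
      have : ((Real.log Δ) ^ 2 * K / s0 + 4 * (K : ℝ) ^ 2 / I.al) * n =
          (K * ((Real.log Δ) ^ 2 / s0)) * n + 4 * (K : ℝ) ^ 2 * (n / I.al) := by
        field_simp
      rw [this]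
      have h3 : (K * ((Real.log Δ) ^ 2 / s0)) * n ≤
          (K : ℝ) ^ 2 * ((Real.log Δ) ^ 2 / s0) * (n / I.al) := by
        refine mul_le_mul ?_ hn hn0 (by positivity)
        refine mul_le_mul_of_nonneg_right ?_ hL
        nlinarith
      linarith
    have hnu2 : 0 ≤ I.nu2 ^ 2 := sq_nonneg _
    calc 144 * (K : ℝ) ^ 2 * I.nu2 ^ 2 * (n : ℝ) ^ 2 + 24 * C4 * I.nu2 ^ 2 * n
        = I.nu2 ^ 2 * (144 * (K : ℝ) ^ 2 * (n : ℝ) ^ 2 + 24 * (C4 * n)) := by ring
      _ ≤ I.nu2 ^ 2 * (144 * (K : ℝ) ^ 2 * (n : ℝ) ^ 2 + 24 * ((K : ℝ) ^ 2 *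
            ((Real.log Δ) ^ 2 / s0) * (n / I.al) + 4 * (K : ℝ) ^ 2 * (n / I.al))) := by
          refine mul_le_mul_of_nonneg_left ?_ hnu2
          linarith
      _ ≤ I.nu2 ^ 2 * (500 * (K : ℝ) ^ 2 * (1 + (Real.log Δ) ^ 2 / s0) *
            ((n : ℝ) ^ 2 + n / I.al)) := by
          refine mul_le_mul_of_nonneg_left ?_ hnu2
          set a := (K : ℝ) ^ 2 with ha
          set b := (Real.log Δ) ^ 2 / s0 with hb
          set c := (n : ℝ) ^ 2 with hc
          set e := (n : ℝ) / I.al with he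
          have ha0 : 0 ≤ a := by positivity
          have hc0 : 0 ≤ c := by positivity
          have he0 : 0 ≤ e := by positivity
          have p1 : 0 ≤ a * c := mul_nonneg ha0 hc0
          have p2 : 0 ≤ a * e := mul_nonneg ha0 he0
          have p3 : 0 ≤ a * b * c := mul_nonneg (mul_nonneg ha0 hL) hc0
          have p4 : 0 ≤ a * b * e := mul_nonneg (mul_nonneg ha0 hL) he0
          nlinarith
      _ = _ := by ring

end KS.MOM_helper20
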