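import Pool.Agent.Helper20.KS.MOM

/-!
# KS.S_PZ: one-sided anti-concentration of the ideal chain
-/

set_option autoImplicit false
set_option maxHeartbeats 4000000

open Finset

namespace KS.PZ_helper20

open Inst

open scoped Classical

/-- polynomial minorant of the indicator function -/
lemma ind_ge (D u : ℝ) (hD : 1 ≤ D) :
    (2 * D * u + u ^ 2 - u ^ 4 / (16 * D ^ 2) - 1 / 8) / (12 * D ^ 2) ≤
      if 1 / (32 * D) ≤ u then 1 else 0 := by
  have hD0 : 0 < D := by linarith
  obtain ⟨w, rfl⟩ : ∃ w, u = D * w := ⟨u / D, by field_simp⟩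
  have e : 2 * D * (D * w) + (D * w) ^ 2 - (D * w) ^ 4 / (16 * D ^ 2) - 1 / 8 =
      D ^ 2 * (2 * w + w ^ 2 - w ^ 4 / 16) - 1 / 8 := by
    field_simp
  rw [e]
  have hDD : 0 < 12 * D ^ 2 := by positivity
  split_ifs with h
  · rw [div_le_one hDD]
    have h1 : 2 * w + w ^ 2 - w ^ 4 / 16 ≤ 12 := by
      nlinarith [sq_nonneg (w ^ 2 / 4 - 3), sq_nonneg (w - 2)]
    have h2 : D ^ 2 * (2 * w + w ^ 2 - w ^ 4 / 16) ≤ D ^ 2 * 12 :=
      mul_le_mul_of_nonneg_left h1 (by positivity)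
    linarith
  · refine div_nonpos_of_nonpos_of_nonneg ?_ hDD.le
    push Not at h
    have hD2 : 1 ≤ D ^ 2 := by nlinarith
    rcases le_or_gt 0 w with hw | hw
    · have h3 : D ^ 2 * w < 1 / 32 := by
        have : D * (D * w) < D * (1 / (32 * D)) := mul_lt_mul_of_pos_left h hD0
        have e2 : D * (1 / (32 * D)) = 1 / 32 := by field_simp
        rw [e2] at this
        nlinarith
      have hw1 : w ≤ 1 / 32 := by nlinarith
      have h4 : D ^ 2 * (2 * w + w ^ 2 - w ^ 4 / 16) ≤ D ^ 2 * (3 * w) := by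
        refine mul_le_mul_of_nonneg_left ?_ (by positivity)
        nlinarith [pow_nonneg hw 4]
      nlinarith
    · have h5 : 2 * w + w ^ 2 - w ^ 4 / 16 ≤ 0 := by
        obtain ⟨z, rfl⟩ : ∃ z, w = -z := ⟨-w, by ring⟩
        have hz : 0 < z := by linarith
        have h6 : 0 ≤ z ^ 3 - 16 * z + 32 := by
          nlinarith [mul_nonneg (sq_nonneg (z - 2.4)) (by linarith : (0:ℝ) ≤ z + 4.8)]
        nlinarith [mul_nonneg hz.le h6]
      have h7 : D ^ 2 * (2 * w + w ^ 2 - w ^ 4 / 16) ≤ 0 :=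
        mul_nonpos_of_nonneg_of_nonpos (by positivity) h5
      linarith

theorem main (hQ : S_Q) (hTN : S_TN) (hC1 : S_C1) (hMOM : S_MOM) (hCHEB : S_CHEB) : S_PZ := by
  intro K Δ s0 hK2 hs0
  have hK : (2 : ℝ) ≤ K := by exact_mod_cast hK2
  set C : ℝ := 500 * (K : ℝ) ^ 2 * (1 + (Real.log Δ) ^ 2 / s0) with hC
  have hC1' : 1 ≤ C := by
    rw [hC]
    have h1 : 0 ≤ (Real.log Δ) ^ 2 / s0 := by positivity
    have h2 : (1 : ℝ) ≤ 500 * (K : ℝ) ^ 2 := by nlinarith only [hK]
    nlinarith only [h2, mul_nonneg (by linarith : (0 : ℝ) ≤ 500 * (K : ℝ) ^ 2) h1]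
  set D : ℝ := C with hD
  have hD1 : 1 ≤ D := hC1'
  have hD0 : 0 < D := by linarith
  set c : ℝ := 1 / (32 * D) with hc
  have hc0 : 0 < c := by positivity
  have hc1 : c ≤ 1 := by
    rw [hc, div_le_one (by positivity)]
    linarith
  set ka : ℝ := c ^ 2 / (4000 * (K : ℝ) ^ 2) with hka
  have hka0 : 0 < ka := by positivity
  have hc2 : c ^ 2 ≤ 1 := by nlinarith only [hc0, hc1]
  have hK4 : (2 : ℝ) ≤ 4000 * (K : ℝ) ^ 2 := by nlinarith only [hK]
  have hka1 : ka ≤ 1 / 2 := by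
    rw [hka, div_le_div_iff₀ (by positivity) (by norm_num)]
    linarith
  refine ⟨c / 4, by positivity, 1 / (4 * K) * (1 / (48 * D ^ 2)), by positivity, 2 / ka,
    by positivity, ?_⟩
  intro I hV hal hs n k0 l hn
  obtain ⟨hmono, hlin, hconst, hsemi, htrans, _⟩ := hTN K Δ I hV
  obtain ⟨_, hsn, _, _, hpsi, _, _, _, _⟩ := hC1 K Δ I hV hal
  have hal1 := MOM_helper20.al_le_one I hV
  have hnu : 0 < I.nu2 := lt_of_lt_of_le (lt_of_lt_of_le hs0 hs) hsn
  have hadd : ∀ (n : ℕ) (f g : Fin K → ℝ → ℝ) (k : Fin K) (x : ℝ),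
      I.Tn n (fun k x => f k x + g k x) k x = I.Tn n f k x + I.Tn n g k x := by
    intro n f g k x
    have := hlin n f g 1 1 k x
    simpa using this
  have hsmul : ∀ (n : ℕ) (f : Fin K → ℝ → ℝ) (a : ℝ) (k : Fin K) (x : ℝ),
      I.Tn n (fun k x => a * f k x) k x = a * I.Tn n f k x := by
    intro n f a k x
    have := hlin n f f a 0 k x
    simpa using this
  -- the splitting
  set j : ℕ := ⌊ka * n⌋₊ with hj
  have hn0 : (0 : ℝ) ≤ n := Nat.cast_nonneg n
  have hjle : (j : ℝ) ≤ ka * n := Nat.floor_le (by positivity)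
  have hjge : ka * n - 1 ≤ j := by
    have := Nat.lt_floor_add_one (ka * n)
    linarith
  have hjn : j ≤ n := by
    have h0 : ka * n ≤ 1 / 2 * n := mul_le_mul_of_nonneg_right hka1 hn0
    have : (j : ℝ) ≤ n := by linarith
    exact_mod_cast this
  obtain ⟨m, hm⟩ : ∃ m, n = m + j := ⟨n - j, by omega⟩
  have hmR : (n : ℝ) = m + j := by rw [hm]; push_cast; ring
  have hm2 : (n : ℝ) / 2 ≤ m := by
    have h0 : ka * n ≤ 1 / 2 * n := mul_le_mul_of_nonneg_right hka1 hn0
    linarith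
  have hAn : 2 / ka ≤ I.al * n := hn
  have hkinv : 2 / ka = 8000 * (K : ℝ) ^ 2 / c ^ 2 := by
    rw [hka]
    field_simp
    norm_num
  have halm : 4000 * (K : ℝ) ^ 2 / c ^ 2 ≤ I.al * m := by
    have h1 : I.al * (n / 2) ≤ I.al * m := mul_le_mul_of_nonneg_left hm2 hal.le
    have h2 : 8000 * (K : ℝ) ^ 2 / c ^ 2 = 2 * (4000 * (K : ℝ) ^ 2 / c ^ 2) := by ring
    rw [hkinv, h2] at hAn
    linarith
  have hbig : 4000 * (K : ℝ) ^ 2 ≤ 4000 * (K : ℝ) ^ 2 / c ^ 2 := by
    rw [le_div_iff₀ (by positivity)]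
    have : 0 ≤ 4000 * (K : ℝ) ^ 2 := by positivity
    exact mul_le_of_le_one_right this hc2
  have halm2 : 2 ≤ I.al * m := by linarith
  have hm0 : (0 : ℝ) < m := by
    rcases (Nat.cast_nonneg m : (0 : ℝ) ≤ m).lt_or_eq with h | h
    · exact h
    · rw [← h] at halm2
      norm_num at halm2
  set s2 : ℝ := I.nu2 * m with hs2
  have hs20 : 0 < s2 := mul_pos hnu hm0
  set s : ℝ := Real.sqrt s2 with hsdef
  have hs_pos : 0 < s := Real.sqrt_pos.2 hs20
  have hss : s ^ 2 = s2 := Real.sq_sqrt hs20.le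
  -- the martingale at time m
  set Y : Fin K → ℝ → ℝ := fun k x => x - (m : ℝ) * I.mu + psi I k - psi I k0 with hY
  obtain ⟨hm1, hm2l, _, hm4⟩ := hMOM K Δ I hV hal s0 hs0 hs m k0
  have hEY : I.Tn m (fun k x => Y k x) k0 0 = 0 := hm1
  have hEY2 : 1 / 2 * s2 ≤ I.Tn m (fun k x => Y k x ^ 2) k0 0 := by
    refine le_trans ?_ hm2l
    have h1 : 1 / I.al ≤ m / 2 := by
      rw [div_le_div_iff₀ hal (by norm_num)]
      linarith
    rw [hs2]
    nlinarith only [mul_le_mul_of_nonneg_left h1 hnu.le]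
  have hEY4 : I.Tn m (fun k x => Y k x ^ 4) k0 0 ≤ 2 * D ^ 2 * s2 ^ 2 := by
    refine le_trans hm4 ?_
    have h1 : (m : ℝ) / I.al ≤ m ^ 2 := by
      rw [div_le_iff₀ hal]
      nlinarith only [hm0, halm2, mul_nonneg (by linarith : (0 : ℝ) ≤ I.al * m - 2) hm0.le]
    rw [hs2]
    have h2 : C ≤ D ^ 2 := by nlinarith only [hC1']
    have h3 : (0 : ℝ) ≤ I.nu2 ^ 2 := sq_nonneg _
    calc C * I.nu2 ^ 2 * ((m : ℝ) ^ 2 + m / I.al) ≤ C * I.nu2 ^ 2 * (2 * (m : ℝ) ^ 2) := by
          refine mul_le_mul_of_nonneg_left (by linarith) (by positivity)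
      _ ≤ D ^ 2 * I.nu2 ^ 2 * (2 * (m : ℝ) ^ 2) := by
          refine mul_le_mul_of_nonneg_right ?_ (by positivity)
          exact mul_le_mul_of_nonneg_right h2 h3
      _ = _ := by ring
  -- Paley-Zygmund
  have hPZ : ∀ σ : ℝ, σ = 1 ∨ σ = -1 →
      1 / (48 * D ^ 2) ≤ I.Tn m (fun k x => if c * s ≤ σ * Y k x then (1 : ℝ) else 0) k0 0 := by
    intro σ hσ
    have hσ2 : σ ^ 2 = 1 := by rcases hσ with h | h <;> rw [h] <;> norm_num
    have hσ4 : σ ^ 4 = 1 := by rcases hσ with h | h <;> rw [h] <;> norm_num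
    have hpt : ∀ (k : Fin K) (x : ℝ),
        ((2 * D * σ / s / (12 * D ^ 2)) * Y k x + (1 / s2 / (12 * D ^ 2)) * Y k x ^ 2)
          + ((-(1 / (16 * D ^ 2 * s2 ^ 2) / (12 * D ^ 2))) * Y k x ^ 4
            + (-(1 / 8 / (12 * D ^ 2)))) ≤ if c * s ≤ σ * Y k x then (1 : ℝ) else 0 := by
      intro k x
      have h := ind_ge D (σ * Y k x / s) hD1
      have hiff : (1 / (32 * D) ≤ σ * Y k x / s) ↔ (c * s ≤ σ * Y k x) := by
        rw [le_div_iff₀ hs_pos]
      have e1 : (if 1 / (32 * D) ≤ σ * Y k x / s then (1 : ℝ) else 0) =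
          if c * s ≤ σ * Y k x then (1 : ℝ) else 0 := by
        simp only [hiff]
      rw [e1] at h
      refine le_trans (le_of_eq ?_) h
      have e2 : (σ * Y k x / s) ^ 2 = Y k x ^ 2 / s2 := by
        rw [div_pow, mul_pow, hσ2, hss, one_mul]
      have e3 : (σ * Y k x / s) ^ 4 = Y k x ^ 4 / s2 ^ 2 := by
        have : s ^ 4 = s2 ^ 2 := by rw [← hss]; ring
        rw [div_pow, mul_pow, hσ4, this, one_mul]
      rw [e2, e3]
      field_simp
      ring
    have h1 := hmono m _ _ hpt k0 0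
    refine le_trans ?_ h1
    rw [hadd m (fun k x => (2 * D * σ / s / (12 * D ^ 2)) * Y k x
          + (1 / s2 / (12 * D ^ 2)) * Y k x ^ 2)
        (fun k x => (-(1 / (16 * D ^ 2 * s2 ^ 2) / (12 * D ^ 2))) * Y k x ^ 4
            + (-(1 / 8 / (12 * D ^ 2)))) k0 0,
      hadd m (fun k x => (2 * D * σ / s / (12 * D ^ 2)) * Y k x)
        (fun k x => (1 / s2 / (12 * D ^ 2)) * Y k x ^ 2) k0 0,
      hadd m (fun k x => (-(1 / (16 * D ^ 2 * s2 ^ 2) / (12 * D ^ 2))) * Y k x ^ 4)
        (fun _ _ => (-(1 / 8 / (12 * D ^ 2)))) k0 0,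
      hsmul m (fun k x => Y k x) _ k0 0, hsmul m (fun k x => Y k x ^ 2) _ k0 0,
      hsmul m (fun k x => Y k x ^ 4) _ k0 0, hconst, hEY]
    have a2 : 1 / s2 / (12 * D ^ 2) * (1 / 2 * s2) ≤
        1 / s2 / (12 * D ^ 2) * I.Tn m (fun k x => Y k x ^ 2) k0 0 :=
      mul_le_mul_of_nonneg_left hEY2 (by positivity)
    have a4 : 1 / (16 * D ^ 2 * s2 ^ 2) / (12 * D ^ 2) * I.Tn m (fun k x => Y k x ^ 4) k0 0 ≤
        1 / (16 * D ^ 2 * s2 ^ 2) / (12 * D ^ 2) * (2 * D ^ 2 * s2 ^ 2) :=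
      mul_le_mul_of_nonneg_left hEY4 (by positivity)
    have b2 : 1 / s2 / (12 * D ^ 2) * (1 / 2 * s2) = 1 / 2 / (12 * D ^ 2) := by
      field_simp
    have b4 : 1 / (16 * D ^ 2 * s2 ^ 2) / (12 * D ^ 2) * (2 * D ^ 2 * s2 ^ 2) =
        1 / 8 / (12 * D ^ 2) := by
      field_simp
      norm_num
    rw [b2] at a2
    rw [b4] at a4
    have e5 : 1 / (48 * D ^ 2) = 1 / 2 / (12 * D ^ 2) - 1 / 8 / (12 * D ^ 2)
        - 1 / 8 / (12 * D ^ 2) := by
      field_simp
      norm_num
    rw [e5]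
    linarith
  -- the corrector is small
  have hpsi2 : ∀ k, |psi I k - psi I k0| ≤ c / 4 * s := by
    intro k
    refine abs_le_of_sq_le_sq ?_ (by positivity)
    have h1 := hpsi k
    have h2 := hpsi k0
    have h3 : (psi I k - psi I k0) ^ 2 ≤ 2 * psi I k ^ 2 + 2 * psi I k0 ^ 2 := by
      nlinarith only [sq_nonneg (psi I k + psi I k0)]
    have h4 : 2 * (K * I.nu2 / (2 * I.al)) + 2 * (K * I.nu2 / (2 * I.al)) =
        2 * K * I.nu2 / I.al := by
      field_simp
      ring
    have h5 : 2 * K * I.nu2 / I.al ≤ (c / 4 * s) ^ 2 := by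
      rw [mul_pow, hss, hs2, div_le_iff₀ hal]
      have h6 : 4000 * (K : ℝ) ^ 2 ≤ I.al * m * c ^ 2 := by
        rw [div_le_iff₀ (by positivity)] at halm
        exact halm
      have h7 : 2 * (K : ℝ) ≤ (I.al * m * c ^ 2) / 16 := by nlinarith only [h6, hK]
      have h8 := mul_le_mul_of_nonneg_left h7 hnu.le
      nlinarith only [h8]
    linarith
  -- the last j steps: community
  have hjal : (1 - I.al) ^ j ≤ 1 / 2 := by
    have h1 : 1 ≤ I.al * j := by
      have h2 : I.al * (ka * n - 1) ≤ I.al * j := mul_le_mul_of_nonneg_left hjge hal.le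
      have h3 : 2 ≤ ka * (I.al * n) := by
        rw [div_le_iff₀ hka0] at hAn
        linarith
      nlinarith only [h2, h3, hal1]
    have h4 : (1 - I.al) ^ j ≤ Real.exp (-I.al) ^ j := by
      refine pow_le_pow_left₀ (by linarith) ?_ j
      have := Real.add_one_le_exp (-I.al)
      linarith
    have h5 : Real.exp (-I.al) ^ j = Real.exp (-(I.al * j)) := by
      rw [← Real.exp_nat_mul]
      congr 1
      ring
    have h6 : Real.exp (-(I.al * j)) ≤ Real.exp (-1) := Real.exp_le_exp.2 (by linarith)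
    have h7 : Real.exp (-1) ≤ 1 / 2 := by
      rw [Real.exp_neg]
      have : (2 : ℝ) ≤ Real.exp 1 := by
        have := Real.add_one_le_exp (1 : ℝ)
        linarith
      rw [one_div]
      exact inv_anti₀ (by norm_num) this
    linarith [h5 ▸ h4]
  have hcom : ∀ k, 1 / (2 * (K : ℝ)) ≤
      I.Tn j (fun k' _ => if k' = l then (1 : ℝ) else 0) k 0 := by
    intro k
    have h := MOM_helper20.Tn_com I hQ hV (fun k' => if k' = l then (1 : ℝ) else 0) j 1 0
    have h' : I.Tn j (fun k' _ => if k' = l then (1 : ℝ) else 0) = fun k _ =>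
        (1 - I.al) ^ j * (if k = l then (1 : ℝ) else 0) +
        (1 - (1 - I.al) ^ j) * ((1 / (K : ℝ)) * ∑ l', if l' = l then (1 : ℝ) else 0) := by
      simpa using h
    rw [h']
    have h1 : 0 ≤ (1 - I.al) ^ j * (if k = l then (1 : ℝ) else 0) := by
      refine mul_nonneg (pow_nonneg (by linarith) j) ?_
      split_ifs <;> norm_num
    have h2 : ∑ l' : Fin K, (if l' = l then (1 : ℝ) else 0) = 1 := by simp
    show 1 / (2 * (K : ℝ)) ≤ (1 - I.al) ^ j * (if k = l then (1 : ℝ) else 0) +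
        (1 - (1 - I.al) ^ j) * ((1 / (K : ℝ)) * ∑ l', if l' = l then (1 : ℝ) else 0)
    rw [h2]
    have h3 : 1 / (2 * (K : ℝ)) = 1 / 2 * (1 / K) := by field_simp
    rw [h3]
    have h4 : 1 / 2 * (1 / (K : ℝ)) ≤ (1 - (1 - I.al) ^ j) * (1 / K * 1) := by
      rw [mul_one]
      exact mul_le_mul_of_nonneg_right (by linarith) (by positivity)
    linarith
  -- the last j steps: deviation
  have hdev : ∀ k, I.Tn j (fun _ x => if c / 4 * s ≤ |x - j * I.mu| then (1 : ℝ) else 0) k 0 ≤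
      1 / (4 * K) := by
    intro k
    have hA : 0 < c / 4 * s := by positivity
    have hA2 : (c / 4 * s) ^ 2 = c ^ 2 / 16 * s2 := by rw [mul_pow, hss]; ring
    have h6 : 4000 * (K : ℝ) ^ 2 ≤ I.al * m * c ^ 2 := by
      rw [div_le_iff₀ (by positivity)] at halm
      exact halm
    have hcond : 8 * K * I.nu2 / I.al ≤ (c / 4 * s) ^ 2 := by
      rw [hA2, hs2, div_le_iff₀ hal]
      have h7 : 8 * (K : ℝ) ≤ (I.al * m * c ^ 2) / 16 := by nlinarith only [h6, hK]
      have h8 := mul_le_mul_of_nonneg_left h7 hnu.le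
      nlinarith only [h8]
    refine (hCHEB K Δ I hV hal s0 hs0 hs j k (c / 4 * s) hA hcond).trans ?_
    rw [hA2, hs2, div_le_div_iff₀ (by positivity) (by positivity)]
    have h9 : (j : ℝ) ≤ c ^ 2 / (2000 * (K : ℝ) ^ 2) * m := by
      have : ka * n ≤ ka * (2 * m) := mul_le_mul_of_nonneg_left (by linarith) hka0.le
      have e : ka * (2 * m) = c ^ 2 / (2000 * (K : ℝ) ^ 2) * m := by
        rw [hka]
        field_simp
        norm_num
      linarith
    have h10 : (K : ℝ) ^ 2 * j ≤ c ^ 2 / 2000 * m := by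
      have := mul_le_mul_of_nonneg_left h9 (by positivity : (0 : ℝ) ≤ (K : ℝ) ^ 2)
      have e : (K : ℝ) ^ 2 * (c ^ 2 / (2000 * (K : ℝ) ^ 2) * m) = c ^ 2 / 2000 * m := by
        field_simp
      linarith
    have h11 := mul_le_mul_of_nonneg_left h10 hnu.le
    have h12 : 0 ≤ I.nu2 * (c ^ 2 * m) := by positivity
    nlinarith only [h11, h12]
  -- combination
  have hfin : ∀ σ : ℝ, σ = 1 ∨ σ = -1 → 1 / (4 * K) * (1 / (48 * D ^ 2)) ≤
      I.Tn n (fun k x => if k = l ∧ c / 4 * Real.sqrt (I.nu2 * n) ≤ σ * (x - n * I.mu)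
        then (1 : ℝ) else 0) k0 0 := by
    intro σ hσ
    have habs : ∀ y : ℝ, -|y| ≤ σ * y := by
      intro y
      rcases hσ with h | h <;> rw [h]
      · rw [one_mul]; exact neg_abs_le y
      · have := le_abs_self y
        linarith
    have hsq : Real.sqrt (I.nu2 * n) ≤ 2 * s := by
      rw [hsdef]
      rw [Real.sqrt_le_left (by positivity)]
      rw [mul_pow, Real.sq_sqrt hs20.le, hs2]
      nlinarith only [mul_le_mul_of_nonneg_left hm2 hnu.le, hs20, hs2]
    have hpt : ∀ (k : Fin K) (x : ℝ), 1 / (4 * (K : ℝ)) *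
        (if c * s ≤ σ * Y k x then (1 : ℝ) else 0) ≤
        I.Tn j (fun k x => if k = l ∧ c / 4 * Real.sqrt (I.nu2 * n) ≤ σ * (x - n * I.mu)
        then (1 : ℝ) else 0) k x := by
      intro k x
      split_ifs with h
      · rw [htrans]
        have h1 : ∀ (k' : Fin K) (y : ℝ),
            (if k' = l then (1 : ℝ) else 0) +
              (-1) * (if c / 4 * s ≤ |y - j * I.mu| then (1 : ℝ) else 0) ≤
            (if k' = l ∧ c / 4 * Real.sqrt (I.nu2 * n) ≤ σ * ((x + y) - n * I.mu)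
              then (1 : ℝ) else 0) := by
          intro k' y
          by_cases hk : k' = l
          · by_cases hy : c / 4 * s ≤ |y - j * I.mu|
            · rw [if_pos hk, if_pos hy]
              split_ifs <;> norm_num
            · rw [if_pos hk, if_neg hy]
              have hgo : c / 4 * Real.sqrt (I.nu2 * n) ≤ σ * ((x + y) - n * I.mu) := by
                push Not at hy
                have e1 : σ * ((x + y) - n * I.mu) = σ * (Y k x) - σ * (psi I k - psi I k0)
                    + σ * (y - j * I.mu) := by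
                  rw [hY, hmR]
                  ring
                have e2 := habs (y - j * I.mu)
                have e3 : σ * (psi I k - psi I k0) ≤ |psi I k - psi I k0| := by
                  rcases hσ with h | h <;> rw [h]
                  · rw [one_mul]; exact le_abs_self _
                  · have := neg_abs_le (psi I k - psi I k0)
                    linarith
                have e4 := hpsi2 k
                have e5 : c / 4 * Real.sqrt (I.nu2 * n) ≤ c / 4 * (2 * s) :=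
                  mul_le_mul_of_nonneg_left hsq (by positivity)
                rw [e1]
                linarith
              rw [if_pos ⟨hk, hgo⟩]
              norm_num
          · have hk2 : ¬ (k' = l ∧ c / 4 * Real.sqrt (I.nu2 * n) ≤
                σ * ((x + y) - n * I.mu)) := fun h => hk h.1
            rw [if_neg hk, if_neg hk2]
            split_ifs <;> norm_num
        have h2 := hmono j _ _ h1 k 0
        rw [hadd j (fun k' _ => if k' = l then (1 : ℝ) else 0)
          (fun _ y => (-1) * (if c / 4 * s ≤ |y - j * I.mu| then (1 : ℝ) else 0)) k 0,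
          hsmul j (fun _ y => (if c / 4 * s ≤ |y - j * I.mu| then (1 : ℝ) else 0)) (-1) k 0] at h2
        have h3 := hcom k
        have h4 := hdev k
        have e6 : 1 / (4 * (K : ℝ)) * 1 = 1 / (2 * K) - 1 / (4 * K) := by
          field_simp
          norm_num
        rw [e6]
        refine le_trans ?_ h2
        linarith
      · rw [mul_zero]
        have h1 : ∀ (k' : Fin K) (y : ℝ), (0 : ℝ) ≤
            (if k' = l ∧ c / 4 * Real.sqrt (I.nu2 * n) ≤ σ * (y - n * I.mu)
              then (1 : ℝ) else 0) := by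
          intro k' y
          split_ifs <;> norm_num
        have h2 := hmono j (fun _ _ => (0 : ℝ)) _ h1 k x
        rwa [hconst] at h2
    have h1 := hmono m _ _ hpt k0 0
    rw [hsmul m (fun k x => if c * s ≤ σ * Y k x then (1 : ℝ) else 0) _ k0 0] at h1
    have h2 := hsemi m j (fun k x => if k = l ∧ c / 4 * Real.sqrt (I.nu2 * n) ≤ σ * (x - n * I.mu)
        then (1 : ℝ) else 0)
    rw [← hm] at h2
    rw [h2]
    refine le_trans ?_ h1
    exact mul_le_mul_of_nonneg_left (hPZ σ hσ) (by positivity)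
  constructor
  · have h := hfin 1 (Or.inl rfl)
    refine h.trans (le_of_eq ?_)
    congr 1
    funext k x
    have : (c / 4 * Real.sqrt (I.nu2 * n) ≤ 1 * (x - n * I.mu)) ↔
        (n * I.mu + c / 4 * Real.sqrt (I.nu2 * n) ≤ x) := by
      constructor <;> intro h <;> linarith
    simp only [this]
  · have h := hfin (-1) (Or.inr rfl)
    refine h.trans (le_of_eq ?_)
    congr 1
    funext k x
    have : (c / 4 * Real.sqrt (I.nu2 * n) ≤ -1 * (x - n * I.mu)) ↔
        (x ≤ n * I.mu - c / 4 * Real.sqrt (I.nu2 * n)) := by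
      constructor <;> intro h <;> linarith
    simp only [this]

end KS.PZ_helper20
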